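import Pool.Agent.Helper73.RT.Defs

set_option autoImplicit false

open Finset

namespace Pool.Agent.Helper73.RT

/-- Colours allowed at `e` by all constraints of `D`. -/
def h87al {E ι : Type} [DecidableEq E] {Q : ℕ} (S : ι → Finset E) (W : ι → E → Finset (Fin Q))
    (D : Finset ι) (e : E) : Finset (Fin Q) :=
  Finset.univ.filter fun c => ∀ i ∈ D, e ∈ S i → c ∈ W i e

theorem h87al_prod {E ι : Type} [Fintype E] [DecidableEq E] [DecidableEq ι] {Q : ℕ} (hQ : 0 < Q)
    (S : ι → Finset E) (W : ι → E → Finset (Fin Q)) (p : ℝ) (hp0 : 0 ≤ p) (D : Finset ι)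
    (hD : ∀ i ∈ D, ∀ j ∈ D, i ≠ j → Disjoint (S i) (S j))
    (hp : ∀ i ∈ D, (∏ e ∈ S i, ((W i e).card : ℝ) / Q) ≤ p) :
    (∏ e : E, ((h87al S W D e).card : ℝ) / Q) ≤ p ^ D.card := by
  have hQ' : (0 : ℝ) < Q := by exact_mod_cast hQ
  revert hD hp
  induction D using Finset.induction_on with
  | empty =>
    intro _ _
    have h : ∀ e : E, ((h87al S W ∅ e).card : ℝ) / Q = 1 := by
      intro e
      have h1 : h87al S W ∅ e = Finset.univ := by
        simp [h87al]
      rw [h1]
      simp [hQ'.ne']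
    simp [h]
  | insert i D hi ih =>
    intro hD hp
    have ih' := ih (fun a ha b hb => hD a (mem_insert_of_mem ha) b (mem_insert_of_mem hb))
      (fun a ha => hp a (mem_insert_of_mem ha))
    have hdis : ∀ j ∈ D, ∀ e, e ∈ S i → e ∉ S j := by
      intro j hj e he he'
      have hne : i ≠ j := by
        rintro rfl
        exact hi hj
      exact Finset.disjoint_left.1 (hD i (mem_insert_self _ _) j (mem_insert_of_mem hj) hne) he he'
    have h1 : ∀ e ∈ S i, h87al S W (insert i D) e = W i e := by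
      intro e he
      ext c
      simp only [h87al, mem_filter, mem_univ, true_and]
      constructor
      · intro h
        exact h i (mem_insert_self _ _) he
      · intro h j hj hej
        rcases mem_insert.1 hj with rfl | hj'
        · exact h
        · exact absurd hej (hdis j hj' e he)
    have h2 : ∀ e ∈ S i, h87al S W D e = Finset.univ := by
      intro e he
      ext c
      simp only [h87al, mem_filter, mem_univ, true_and, iff_true]
      intro j hj hej
      exact absurd hej (hdis j hj e he)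
    have h3 : ∀ e, e ∉ S i → h87al S W (insert i D) e = h87al S W D e := by
      intro e he
      ext c
      simp only [h87al, mem_filter, mem_univ, true_and]
      constructor
      · intro h j hj
        exact h j (mem_insert_of_mem hj)
      · intro h j hj hej
        rcases mem_insert.1 hj with rfl | hj'
        · exact absurd hej he
        · exact h j hj' hej
    have e1 : (∏ e : E, ((h87al S W (insert i D) e).card : ℝ) / Q)
        = (∏ e ∈ S i, ((W i e).card : ℝ) / Q)
          * ∏ e ∈ (S i)ᶜ, ((h87al S W D e).card : ℝ) / Q := by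
      rw [← Finset.prod_mul_prod_compl (S i)]
      congr 1
      · exact Finset.prod_congr rfl fun e he => by rw [h1 e he]
      · exact Finset.prod_congr rfl fun e he => by rw [h3 e (by simpa using he)]
    have e2 : (∏ e : E, ((h87al S W D e).card : ℝ) / Q)
        = ∏ e ∈ (S i)ᶜ, ((h87al S W D e).card : ℝ) / Q := by
      rw [← Finset.prod_mul_prod_compl (S i)]
      have : (∏ e ∈ S i, ((h87al S W D e).card : ℝ) / Q) = 1 := by
        apply Finset.prod_eq_one
        intro e he
        rw [h2 e he]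
        simp [hQ'.ne']
      rw [this, one_mul]
    rw [e1, ← e2, Finset.card_insert_of_notMem hi, pow_succ']
    apply mul_le_mul (hp i (mem_insert_self _ _)) ih' _ hp0
    exact Finset.prod_nonneg fun e _ => by positivity

/-- RT-A1. Union bound for pairwise disjointly supported constraints. -/
theorem disj_occ {E ι : Type} [Fintype E] [DecidableEq E] [DecidableEq ι] {Q : ℕ} (hQ : 0 < Q)
    (S : ι → Finset E) (W : ι → E → Finset (Fin Q)) (C : Finset ι) (p : ℝ) (hp0 : 0 ≤ p)
    (hp : ∀ i ∈ C, (∏ e ∈ S i, ((W i e).card : ℝ) / Q) ≤ p) (T : ℕ) :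
    ({f : E → Fin Q | ∃ D ⊆ C, D.card = T ∧
        (∀ i ∈ D, ∀ j ∈ D, i ≠ j → Disjoint (S i) (S j)) ∧
        ∀ i ∈ D, ∀ e ∈ S i, f e ∈ W i e}.ncard : ℝ)
      ≤ (C.card.choose T : ℝ) * p ^ T * (Q : ℝ) ^ Fintype.card E := by
  classical
  have hQ' : (0 : ℝ) < Q := by exact_mod_cast hQ
  set G : Finset (Finset ι) := (powersetCard T C).filter
    fun D => ∀ i ∈ D, ∀ j ∈ D, i ≠ j → Disjoint (S i) (S j) with hG
  have hsub : {f : E → Fin Q | ∃ D ⊆ C, D.card = T ∧
        (∀ i ∈ D, ∀ j ∈ D, i ≠ j → Disjoint (S i) (S j)) ∧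
        ∀ i ∈ D, ∀ e ∈ S i, f e ∈ W i e}
      ⊆ ((G.biUnion fun D => Fintype.piFinset (h87al S W D) : Finset (E → Fin Q)) :
        Set (E → Fin Q)) := by
    rintro f ⟨D, hDC, hcard, hdis, hf⟩
    rw [Finset.mem_coe, mem_biUnion]
    refine ⟨D, ?_, ?_⟩
    · rw [hG, mem_filter, mem_powersetCard]
      exact ⟨⟨hDC, hcard⟩, hdis⟩
    · rw [Fintype.mem_piFinset]
      intro e
      simp only [h87al, mem_filter, mem_univ, true_and]
      intro i hi hei
      exact hf i hi e hei
  have h1 := Set.ncard_le_ncard hsub (Finset.finite_toSet _)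
  rw [Set.ncard_coe_finset] at h1
  have h2 : ((G.biUnion fun D => Fintype.piFinset (h87al S W D)).card : ℝ)
      ≤ ∑ D ∈ G, ((Fintype.piFinset (h87al S W D)).card : ℝ) := by
    exact_mod_cast Finset.card_biUnion_le
  have h3 : ∀ D ∈ G, ((Fintype.piFinset (h87al S W D)).card : ℝ)
      ≤ p ^ T * (Q : ℝ) ^ Fintype.card E := by
    intro D hD
    rw [hG, mem_filter, mem_powersetCard] at hD
    obtain ⟨⟨hDC, hcard⟩, hdis⟩ := hD
    have h := h87al_prod hQ S W p hp0 D hdis (fun i hi => hp i (hDC hi))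
    rw [hcard] at h
    rw [Fintype.card_piFinset]
    push_cast
    have e : (∏ e : E, ((h87al S W D e).card : ℝ))
        = (∏ e : E, ((h87al S W D e).card : ℝ) / Q) * (Q : ℝ) ^ Fintype.card E := by
      rw [Finset.prod_div_distrib, Finset.prod_const, Finset.card_univ]
      field_simp
    rw [e]
    exact mul_le_mul_of_nonneg_right h (by positivity)
  calc ({f : E → Fin Q | ∃ D ⊆ C, D.card = T ∧
        (∀ i ∈ D, ∀ j ∈ D, i ≠ j → Disjoint (S i) (S j)) ∧
        ∀ i ∈ D, ∀ e ∈ S i, f e ∈ W i e}.ncard : ℝ)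
      ≤ ((G.biUnion fun D => Fintype.piFinset (h87al S W D)).card : ℝ) := by exact_mod_cast h1
    _ ≤ ∑ D ∈ G, ((Fintype.piFinset (h87al S W D)).card : ℝ) := h2
    _ ≤ ∑ D ∈ G, p ^ T * (Q : ℝ) ^ Fintype.card E := Finset.sum_le_sum h3
    _ = (G.card : ℝ) * (p ^ T * (Q : ℝ) ^ Fintype.card E) := by
        rw [Finset.sum_const, nsmul_eq_mul]
    _ ≤ (C.card.choose T : ℝ) * (p ^ T * (Q : ℝ) ^ Fintype.card E) := by
        apply mul_le_mul_of_nonneg_right _ (by positivity)
        have : G.card ≤ C.card.choose T := by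
          rw [← Finset.card_powersetCard]
          exact Finset.card_le_card (Finset.filter_subset _ _)
        exact_mod_cast this
    _ = (C.card.choose T : ℝ) * p ^ T * (Q : ℝ) ^ Fintype.card E := by ring

end Pool.Agent.Helper73.RT
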